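import Pool.Agent.MP_d1c425_co.H48.Chk

/-! The planes of the 10-space. -/

set_option autoImplicit false

namespace Pool.Agent.MP_d1c425_co.H48

open Module Submodule Finset

theorem tab {n : ℕ} (h : n < 1024) : step n < 1024 ∧ step (E n) = E (n + 1) ∧
    (n ≠ 0 → E (lg n) = n ∧ lg (step n) = (lg n + 1) % 1023) ∧ lg n < 1023 ∧
    (2 ≤ n → 2 ≤ iv n) ∧ 0 < E n ∧ ww n = aa 1 n + 4096 * aa 2 n + 16777216 * aa 3 n ∧
    ∀ i < 10, (step n).testBit i = bif i == 0 then n.testBit 9 else bif i == 3 then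
      n.testBit 2 ^^ n.testBit 9 else n.testBit (i - 1) := by
  have h1 := allTo_spec tabs n h
  simp only [Bool.and_eq_true, Bool.or_eq_true, Nat.blt_eq, beq_iff_eq] at h1
  obtain ⟨⟨⟨⟨⟨⟨⟨a, b⟩, c⟩, d⟩, e⟩, f⟩, g⟩, i⟩ := h1
  exact ⟨a, b, c.resolve_left, d, fun q => by omega, f, g,
    fun j hj => beq_iff_eq.1 (allTo_spec i j hj)⟩

/-- multiplication by the generator -/
def σ : (Fin 10 → F) →ₗ[F] (Fin 10 → F) where
  toFun v := ![v 9, v 0, v 1, v 2 + v 9, v 3, v 4, v 5, v 6, v 7, v 8]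
  map_add' a b := by
    funext i
    fin_cases i <;> simp
    ring
  map_smul' c a := by
    funext i
    fin_cases i <;> simp
    ring

theorem σ_dec {n : ℕ} (h : n < 1024) : σ (dec 10 n) = dec 10 (step n) := by
  have h1 := (tab h).2.2.2.2.2.2.2
  funext i
  fin_cases i <;> simp [σ, dec, h1]
  rcases Bool.eq_false_or_eq_true (n.testBit 2) with a | a <;>
    rcases Bool.eq_false_or_eq_true (n.testBit 9) with b | b <;> simp [a, b]
  rfl

theorem E_lt (a : ℕ) : E a < 1024 := Nat.mod_lt _ (by norm_num)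

theorem E_mod {a b : ℕ} (h : a % 1023 = b % 1023) : E a = E b := by rw [E, E, h]

theorem E_succ (a : ℕ) : E (a + 1) = step (E a) := by
  have h := (tab (n := a % 1023) (by omega)).2.1
  rw [E_mod (Nat.mod_mod a 1023)] at h
  rw [h]
  exact E_mod (by omega)

theorem step_surj {n : ℕ} (h : n < 1024) : ∃ m < 1024, step m = n := by
  by_cases e : n = 0
  · exact ⟨0, by norm_num, e.symm⟩
  · exact ⟨_, E_lt (lg n + 1022), by
      rw [← E_succ, E_mod (b := lg n) (by omega), ((tab h).2.2.1 e).1]⟩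

theorem σ_surj : Function.Surjective σ := fun v => by
  obtain ⟨n, hn, rfl⟩ := dec_surj v
  obtain ⟨m, hm, rfl⟩ := step_surj hn
  exact ⟨_, σ_dec hm⟩

theorem σ_inj : Function.Injective σ := LinearMap.injective_iff_surjective.2 σ_surj

abbrev Z : Type := ZMod 1023

theorem S_σ (w : ℕ → Z) (K : Submodule F (Fin 10 → F)) :
    S 10 w K = S 10 (fun n => w (step n)) (K.comap σ) := by
  classical
  refine (Finset.sum_nbij step (fun n hn => mem_range.2 (tab (mem_range.1 hn)).1)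
    (fun a ha b hb e => ?_) (fun n hn => ?_) fun n hn => ?_).symm
  · have h1 : a < 1024 := by simpa using ha
    have h2 : b < 1024 := by simpa using hb
    exact dec_inj (d := 10) h1 h2 (σ_inj (by rw [σ_dec h1, σ_dec h2, e]))
  · simpa using step_surj (n := n) (by simpa using hn)
  · rw [mem_comap, σ_dec (mem_range.1 hn)]

/-- power sums of the logarithms -/
noncomputable def pp (r : ℕ) (K : Submodule F (Fin 10 → F)) : Z :=
  S 10 (fun n => (lg n : Z) ^ r) K

theorem lg0 : lg 0 = 0 := by decide +kernel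

theorem lg1 : lg 1 = 0 := by decide +kernel

theorem pp_σ (K : Submodule F (Fin 10 → F)) {r : ℕ} (a b c d e : Z)
    (h : ∀ x : Z, (x + 1) ^ r = a * x ^ 0 + b * x ^ 1 + c * x ^ 2 + d * x ^ 3)
    (h0 : (0 : Z) ^ r = a - e) : pp r K = a * pp 0 (K.comap σ) + b * pp 1 (K.comap σ) +
      c * pp 2 (K.comap σ) + d * pp 3 (K.comap σ) - e := by
  classical
  have h1 : e = ∑ n ∈ range (2 ^ 10), if n = 0 then e else 0 := by simp
  rw [pp, S_σ, h1]
  simp only [pp, S, Finset.mul_sum, ← Finset.sum_add_distrib, ← Finset.sum_sub_distrib]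
  refine Finset.sum_congr rfl fun n hn => ?_
  by_cases q : n = 0
  · subst q
    rw [dec_zero, show step 0 = 0 from rfl, lg0]
    simp [h0]
  · rw [((tab (mem_range.1 hn)).2.2.1 q).2, ZMod.natCast_mod, if_neg q]
    split_ifs
    · rw [Nat.cast_succ, h, sub_zero]
    · simp

noncomputable def I2 (K : Submodule F (Fin 10 → F)) : Z := (pp 0 K - 1) * pp 2 K - pp 1 K ^ 2

noncomputable def I3 (K : Submodule F (Fin 10 → F)) : Z :=
  (pp 0 K - 1) ^ 2 * pp 3 K - 3 * (pp 0 K - 1) * pp 1 K * pp 2 K + 2 * pp 1 K ^ 3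

noncomputable def ψA (K : Submodule F (Fin 10 → F)) : ℂ := ζ ^ (col (I2 K).val (I3 K).val % 5)

theorem ψA_σ (K : Submodule F (Fin 10 → F)) : ψA (K.comap σ) = ψA K := by
  have h0 := pp_σ K (r := 0) 1 0 0 0 0 (fun x => by ring) (by simp)
  have h1 := pp_σ K (r := 1) 1 1 0 0 1 (fun x => by ring) (by simp)
  have h2 := pp_σ K (r := 2) 1 2 1 0 1 (fun x => by ring) (by simp)
  have h3 := pp_σ K (r := 3) 1 3 3 1 1 (fun x => by ring) (by simp)
  have e2 : I2 K = I2 (K.comap σ) := by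
    rw [I2, I2, h0, h1, h2]
    ring
  have e3 : I3 K = I3 (K.comap σ) := by
    rw [I3, I3, h0, h1, h2, h3]
    ring
  rw [ψA, ψA, e2, e3]

/-- the line through two points -/
def L (x y : ℕ) : Submodule F (Fin 10 → F) := ⊥ ⊔ span F {dec 10 x} ⊔ span F {dec 10 y}

def G (x y : ℕ) : Prop := N 3 ψA (L x y) = 0

theorem G_step {x y : ℕ} (hx : x < 1024) (hy : y < 1024) : G (step x) (step y) ↔ G x y := by
  have h := N_comap σ_surj 3 ψA (L (step x) (step y))
  have e : L (step x) (step y) = (L x y).map σ := by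
    simp only [L, Submodule.map_sup, map_span, Set.image_singleton, Submodule.map_bot, σ_dec hx,
      σ_dec hy]
  simp only [ψA_σ] at h
  rw [LinearMap.ker_eq_bot.2 σ_inj, finrank_bot] at h
  rw [G, h, e, comap_map_eq_of_injective σ_inj, G]

theorem G_E (a b : ℕ) : G (E a) (E (a + b)) ↔ G 1 (E b) := by
  induction a with
  | zero => rw [zero_add, show E 0 = 1 by decide +kernel]
  | succ a ih => rw [add_right_comm, E_succ, E_succ, G_step (E_lt _) (E_lt _), ih]

theorem E_shift (a : ℕ) {b c : ℕ} (h : E b = E c) : E (b + a) = E (c + a) := by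
  induction a with
  | zero => exact h
  | succ a ih => rw [← add_assoc, ← add_assoc, E_succ, E_succ, ih]

theorem G_norm {x y : ℕ} (hx : x < 1024) (hy : y < 1024) (h1 : x ≠ 0) (h2 : y ≠ 0) :
    G x y ↔ G 1 (E (lg y + 1023 - lg x)) := by
  have := (tab hx).2.2.2.1
  rw [← G_E (lg x), E_mod (a := lg x + _) (b := lg y) (by omega), ((tab hx).2.2.1 h1).1,
    ((tab hy).2.2.1 h2).1]

theorem G_xor (y : ℕ) : G 1 (y ^^^ 1) ↔ G 1 y := by
  have e : L 1 (y ^^^ 1) = L 1 y := Submodule.ext fun v => by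
    simp only [L, mem_step, dec_xor, add_assoc, add_self, add_zero]
    tauto
  rw [G, G, e]

theorem G_iv {y : ℕ} (h : 2 ≤ y ∧ y < 1024) : G 1 (iv y) ↔ G 1 y := by
  have e : L 1 y = L y 1 := sup_right_comm _ _ _
  rw [G.eq_1 1 y, e, ← G, G_norm h.2 (by norm_num) (by omega) one_ne_zero, lg1, zero_add, iv]

theorem xor_one {y : ℕ} (h : 2 ≤ y ∧ y < 1024) : 2 ≤ y ^^^ 1 ∧ y ^^^ 1 < 1024 := by
  refine ⟨not_lt.1 fun e => ?_, Nat.xor_lt_two_pow (n := 10) h.2 (by norm_num)⟩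
  have := Nat.xor_lt_two_pow (n := 1) e (show 1 < 2 ^ 1 by norm_num)
  rw [Nat.xor_xor_cancel_right] at this
  omega

theorem iv_mem {y : ℕ} (h : 2 ≤ y ∧ y < 1024) : 2 ≤ iv y ∧ iv y < 1024 :=
  ⟨(tab h.2).2.2.2.2.1 h.1, E_lt _⟩

theorem lt_two (z : ℕ) : z < 2 ↔ z = 0 ∨ z ^^^ 1 = 0 := by
  rw [Nat.xor_eq_zero_iff]
  omega

theorem gg_eq {u v w a b c a' b' c' a'' b'' c'' : ℕ} (hu : u = a + 4096 * a' + 16777216 * a'')
    (hv : v = b + 4096 * b' + 16777216 * b'') (hw : w = c + 4096 * c' + 16777216 * c'')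
    (_ : a < 1023) (_ : b < 1023) (_ : c < 1023) (_ : a' < 1023) (_ : b' < 1023) (_ : c' < 1023) :
    gg (u + (v + w)) = hh (a + (b + c)) (a' + (b' + c')) (a'' + (b'' + c'')) := by
  have e1 : (u + (v + w)) % 4096 = a + (b + c) := by omega
  have e2 : (u + (v + w)) >>> 12 % 4096 = a' + (b' + c') := by omega
  have e3 : (u + (v + w)) >>> 24 = a'' + (b'' + c'') := by omega
  rw [← e1, ← e2, ← e3]
  rfl

theorem hh_eq {K : Submodule F (Fin 10 → F)} {p q r : ℕ} (h0 : pp 0 K = 8) (h1 : pp 1 K = p)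
    (h2 : pp 2 K = q) (h3 : pp 3 K = r) : col (I2 K).val (I3 K).val = hh p q r := by
  have z0 : (1023 : Z) = 0 := rfl
  have e2 : I2 K = (7 * q + 1022 * (p * p) : ℕ) := by
    rw [I2, h0, h1, h2]
    push_cast
    linear_combination (-(p : Z) ^ 2) * z0
  have e3 : I3 K = (49 * r + p * (1002 * q + 2 * (p * p)) : ℕ) := by
    rw [I3, h0, h1, h2, h3]
    push_cast
    linear_combination (-(p : Z) * q) * z0
  have e4 : ∀ a b, col a (b % 1023) = col a b := fun a b =>
    congrArg (fun t => cT >>> (93 * a + 3 * t) % 8) (Nat.mod_mod_of_dvd b (by norm_num : 31 ∣ 1023))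
  rw [e2, e3, ZMod.val_natCast, ZMod.val_natCast, e4]
  rfl

theorem G_direct {y : ℕ} (h : 2 ≤ y ∧ y < 1024)
    (hc : sumTo (fun z => 2048 ^ (bif pA y z then 5 else fA y z % 5)) (2 ^ 10) =
      204 * 17600780175361 + 4 * 36028797018963968) : G 1 y := by
  have m1 : ∀ z < 2 ^ 10, dec 10 z ∈ ⊥ ⊔ span F {dec 10 1} ↔ z < 2 := fun z hz => by
    rw [mem_step_dec, mem_bot_dec hz, mem_bot_dec (Nat.xor_lt_two_pow hz (by norm_num)), lt_two]
  have n1 : dec 10 1 ∉ (⊥ : Submodule F (Fin 10 → F)) := by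
    rw [mem_bot_dec (by norm_num)]
    norm_num
  have n2 : dec 10 y ∉ ⊥ ⊔ span F {dec 10 1} := by
    rw [m1 y h.2]
    omega
  refine N_zero (t := 2) (by norm_num) (by norm_num) (by
    rw [L, finrank_sup_span_singleton n2, finrank_sup_span_singleton n1, finrank_bot]) _ _
    (fun z hz => ?_) (fun z hz e => ?_) hc
  · rw [L, mem_step_dec, m1 z hz, m1 _ (Nat.xor_lt_two_pow hz h.2), Nat.xor_comm]
    simp only [pA, Bool.or_eq_true, Nat.blt_eq]
    rfl
  · have e1 : ∀ r, pp r (L 1 y ⊔ span F {dec 10 z}) =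
        (0 ^ r + 0 ^ r : Z) + (aa r y + (aa r z + aa r (y ^^^ z)) : ℕ) := fun r => by
      rw [pp, S_step _ hz e]
      simp only [L, S_step _ h.2 n2, S_step _ (show 1 < 2 ^ 10 by norm_num) n1, S_bot,
        Nat.zero_xor, Nat.xor_assoc, lg0, lg1, aa, Nat.cast_add, ZMod.natCast_mod]
      push_cast
      ring
    have b : ∀ r n, aa r n < 1023 := fun r n => Nat.mod_lt _ (by norm_num)
    have e2 : fA y z = hh (aa 1 y + (aa 1 z + aa 1 (y ^^^ z))) (aa 2 y + (aa 2 z + aa 2 (y ^^^ z)))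
        (aa 3 y + (aa 3 z + aa 3 (y ^^^ z))) := by
      exact gg_eq (tab h.2).2.2.2.2.2.2.1 (tab hz).2.2.2.2.2.2.1
        (tab (Nat.xor_lt_two_pow (n := 10) h.2 hz)).2.2.2.2.2.2.1 (b _ _) (b _ _) (b _ _) (b _ _)
        (b _ _) (b _ _)
    have e0 : pp 0 (L 1 y ⊔ span F {dec 10 z}) = 8 := by
      rw [e1]
      simp only [aa, pow_zero]
      norm_num
    rw [e2, ← hh_eq e0 ((e1 1).trans (by simp)) ((e1 2).trans (by simp)) ((e1 3).trans (by simp))]
    rfl

theorem G_all (y : ℕ) (h : 2 ≤ y ∧ y < 1024) : G 1 y := by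
  induction y using Nat.strong_induction_on with
  | _ y ih =>
    have h1 := chk_all h.2
    simp only [chkA, Bool.or_eq_true, Nat.blt_eq, Nat.beq_eq] at h1
    have a := xor_one h
    have b := iv_mem h
    rcases h1 with ((((((q | q) | q) | q) | q) | q) | q) | q
    · omega
    · exact (G_xor y).1 (ih _ q a)
    · exact (G_iv h).1 (ih _ q b)
    · exact (G_iv h).1 ((G_xor _).1 (ih _ q (xor_one b)))
    · exact (G_xor y).1 ((G_iv a).1 (ih _ q (iv_mem a)))
    · exact (G_xor y).1 ((G_iv a).1 ((G_xor _).1 (ih _ q (xor_one (iv_mem a)))))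
    · exact (G_iv h).1 ((G_xor _).1 ((G_iv (xor_one b)).1 (ih _ q (iv_mem (xor_one b)))))
    · exact G_direct h q

theorem baseA : P mu 3 7 3 := by
  refine P.of_one (V := Fin 10 → F) (finrank_fin_fun F) (ψ := ψA) (fun K => ζ_mem _)
    (null_of_top (by norm_num) fun T hT => ?_)
  obtain ⟨T', v, h1, h2, rfl⟩ := exists_step hT
  obtain ⟨T'', u, h3, h4, rfl⟩ := exists_step h1
  obtain rfl := Submodule.finrank_eq_zero.1 h3
  obtain ⟨x, hx, rfl⟩ := dec_surj u
  obtain ⟨y, hy, rfl⟩ := dec_surj v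
  rw [mem_step_dec, mem_bot_dec hy, mem_bot_dec (Nat.xor_lt_two_pow hy hx), Nat.xor_eq_zero_iff,
    not_or] at h2
  rw [mem_bot_dec hx] at h4
  refine (G_norm hx hy h4 h2.1).2 (G_all _ ⟨?_, E_lt _⟩)
  have h5 := (tab (n := (lg y + 1023 - lg x) % 1023) (by omega)).2.2.2.2.2.1
  rw [E_mod (Nat.mod_mod _ 1023)] at h5
  have h6 := (tab hx).2.2.2.1
  by_contra h7
  have h8 := E_shift (lg x) (b := lg y + 1023 - lg x) (c := 0)
    ((show _ = 1 by omega).trans (by decide +kernel))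
  rw [zero_add, E_mod (b := lg y) (by omega), ((tab hx).2.2.1 h4).1, ((tab hy).2.2.1 h2.1).1] at h8
  exact h2.2 h8

end Pool.Agent.MP_d1c425_co.H48
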