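import Pool.Agent.MP_d1c425_co.H48.Tab

/-! The check of one line from each orbit. -/

set_option autoImplicit false

namespace Pool.Agent.MP_d1c425_co.H48

theorem chk0 : allTo (fun n => chkA (n + 0)) 64 = true := by
  decide +kernel

theorem chk1 : allTo (fun n => chkA (n + 64)) 82 = true := by
  decide +kernel

theorem chk2 : allTo (fun n => chkA (n + 146)) 76 = true := by
  decide +kernel

theorem chk3 : allTo (fun n => chkA (n + 222)) 118 = true := by
  decide +kernel

theorem chk4 : allTo (fun n => chkA (n + 340)) 140 = true := by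
  decide +kernel

theorem chk5 : allTo (fun n => chkA (n + 480)) 544 = true := by
  decide +kernel

theorem chk_all {y : ℕ} (h : y < 1024) : chkA y = true := by
  have : y < 64 ∨ (64 ≤ y ∧ y < 146) ∨ (146 ≤ y ∧ y < 222) ∨
      (222 ≤ y ∧ y < 340) ∨ (340 ≤ y ∧ y < 480) ∨ (480 ≤ y ∧ y < 1024) := by omega
  rcases this with h | h | h | h | h | h
  · exact allTo_spec chk0 y h
  · exact Nat.sub_add_cancel h.1 ▸ allTo_spec chk1 (y - 64) (by omega)
  · exact Nat.sub_add_cancel h.1 ▸ allTo_spec chk2 (y - 146) (by omega)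
  · exact Nat.sub_add_cancel h.1 ▸ allTo_spec chk3 (y - 222) (by omega)
  · exact Nat.sub_add_cancel h.1 ▸ allTo_spec chk4 (y - 340) (by omega)
  · exact Nat.sub_add_cancel h.1 ▸ allTo_spec chk5 (y - 480) (by omega)

end Pool.Agent.MP_d1c425_co.H48
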