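import Mathlib

/-! Functions on subspaces of binary vector spaces whose sums over the subspaces through a small
subspace vanish. -/

set_option autoImplicit false
set_option linter.unusedSectionVars false

namespace Pool.Agent.MP_d1c425_co.H48

open Module Submodule Finset

abbrev F : Type := ZMod 2

variable {V W : Type} [AddCommGroup V] [Module F V] [Fintype V] [AddCommGroup W] [Module F W]
  [Fintype W]

open Classical in
/-- the sum of `ψ` over the `k`-subspaces through `T` -/
noncomputable def N (k : ℕ) (ψ : Submodule F V → ℂ) (T : Submodule F V) : ℂ :=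
  ∑ K : Submodule F V, if finrank F K = k ∧ T ≤ K then ψ K else 0

def Null (k τ : ℕ) (ψ : Submodule F V → ℂ) : Prop :=
  ∀ T : Submodule F V, finrank F T < τ → N k ψ T = 0

/-- every space of dimension `k + n` has a function with values in `S` that is null -/
def P (S : Set ℂ) (k n τ : ℕ) : Prop :=
  ∀ (V : Type) [AddCommGroup V] [Module F V] [Fintype V], finrank F V = k + n →
    ∃ ψ : Submodule F V → ℂ, (∀ K, ψ K ∈ S) ∧ Null k τ ψ

/-- the fifth roots of unity -/
def mu : Set ℂ := {z | z ^ 5 = 1}

theorem z2 (a : F) : a = 0 ∨ a = 1 := by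
  revert a
  decide

open Classical in
theorem card_sub (K : Submodule F V) :
    ∑ v : V, (if v ∈ K then (1 : ℂ) else 0) = 2 ^ finrank F K := by
  have h := Module.card_eq_pow_finrank (K := F) (V := K)
  rw [ZMod.card, Fintype.card_subtype] at h
  rw [Finset.sum_boole, h]
  push_cast
  rfl

theorem rank_map (f : V →ₗ[F] W) (K : Submodule F V) :
    finrank F (K.map f) + finrank F (K ⊓ LinearMap.ker f : Submodule F V) = finrank F K := by
  have h := (f.domRestrict K).finrank_range_add_finrank_ker
  rw [LinearMap.range_domRestrict, LinearMap.ker_domRestrict,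
    ← Submodule.finrank_map_subtype_eq K, Submodule.map_comap_subtype] at h
  exact h

theorem rank_comap {π : V →ₗ[F] W} (hπ : Function.Surjective π) (K : Submodule F W) :
    finrank F (K.comap π) = finrank F K + finrank F (LinearMap.ker π) := by
  rw [← rank_map π, map_comap_eq_of_surjective hπ, inf_eq_right.2 (LinearMap.ker_le_comap π)]

open Classical in
/-- double counting -/
theorem sum_out (k : ℕ) (ψ : Submodule F V → ℂ) (T : Submodule F V) :
    ∑ y : V, (if y ∈ T then 0 else N k ψ (T ⊔ span F {y})) =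
      (2 ^ k - 2 ^ finrank F T) * N k ψ T := by
  have h1 : ∀ y : V, (if y ∈ T then 0 else N k ψ (T ⊔ span F {y})) = ∑ K : Submodule F V,
      if finrank F K = k ∧ T ≤ K then ((if y ∈ K then 1 else 0) - if y ∈ T then 1 else 0) * ψ K
      else 0 := fun y => by
    by_cases hy : y ∈ T
    · rw [if_pos hy]
      refine (Finset.sum_eq_zero fun K _ => ?_).symm
      split_ifs with h h'
      · simp
      · exact absurd (h.2 hy) h'
      · rfl
    · rw [if_neg hy, N]
      refine Finset.sum_congr rfl fun K _ => ?_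
      rw [sup_le_iff, span_singleton_le_iff_mem]
      by_cases h : finrank F K = k ∧ T ≤ K <;> by_cases h' : y ∈ K <;> simp [h, h', hy]
  rw [Finset.sum_congr rfl fun y _ => h1 y, Finset.sum_comm, N, Finset.mul_sum]
  refine Finset.sum_congr rfl fun K _ => ?_
  split_ifs with h
  · rw [← Finset.sum_mul, Finset.sum_sub_distrib, card_sub, card_sub, h.1]
  · simp

theorem N_self {k : ℕ} (ψ : Submodule F V → ℂ) {K : Submodule F V} (h : finrank F K = k) :
    N k ψ K = ψ K := by
  rw [N, Finset.sum_eq_single K, if_pos ⟨h, le_rfl⟩]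
  · intro L _ hL
    exact if_neg fun e => hL (eq_of_le_of_finrank_eq e.2 (h.trans e.1.symm)).symm
  · simp

theorem two_ne {a b : ℕ} (h : a < b) : (2 : ℂ) ^ b - 2 ^ a ≠ 0 := by
  rw [sub_ne_zero]
  exact_mod_cast (Nat.pow_lt_pow_right one_lt_two h).ne'

theorem null_of_top {k t : ℕ} {ψ : Submodule F V → ℂ} (hk : t ≤ k)
    (h : ∀ T : Submodule F V, finrank F T = t → N k ψ T = 0) : Null k (t + 1) ψ := by
  induction t with
  | zero => exact fun T hT => h T (by omega)
  | succ t ih =>
    intro T hT
    rcases Nat.lt_succ_iff_lt_or_eq.1 hT with hT | hT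
    · refine ih (by omega) (fun T hT => ?_) T hT
      have h1 := sum_out k ψ T
      rw [Finset.sum_eq_zero, eq_comm, mul_eq_zero] at h1
      · exact h1.resolve_left (two_ne (by omega))
      · intro y _
        split_ifs with hy
        exacts [rfl, h _ (by rw [finrank_sup_span_singleton hy, hT])]
    · exact h T hT

open Classical in
/-- the criterion for hyperplanes of the blocks -/
theorem N_eq {t : ℕ} (ψ : Submodule F V → ℂ) {T : Submodule F V} (hT : finrank F T = t) :
    ∑ y : V, (if y ∈ T then 0 else ψ (T ⊔ span F {y})) = 2 ^ t * N (t + 1) ψ T := by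
  have h1 := sum_out (t + 1) ψ T
  rw [hT, pow_succ, show (2 : ℂ) ^ t * 2 - 2 ^ t = 2 ^ t by ring] at h1
  rw [← h1]
  refine Finset.sum_congr rfl fun y _ => ?_
  split_ifs with hy
  exacts [rfl, (N_self ψ (by rw [finrank_sup_span_singleton hy, hT])).symm]

open Classical in
theorem N_comap {π : V →ₗ[F] W} (hπ : Function.Surjective π) (k : ℕ) (ψ : Submodule F V → ℂ)
    (T : Submodule F W) : N k (fun K => ψ (K.comap π)) T =
      N (k + finrank F (LinearMap.ker π)) ψ (T.comap π) := by
  refine Finset.sum_of_injOn (fun K => K.comap π) (comap_injective_of_surjective hπ).injOn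
    (fun _ _ => by simp) (fun L _ hL => if_neg fun h => hL ⟨L.map π, by simp, ?_⟩) fun K _ => ?_
  · exact comap_map_eq_self ((LinearMap.ker_le_comap π).trans h.2)
  · refine if_congr ?_ rfl rfl
    rw [rank_comap hπ, add_left_inj, comap_le_comap_iff_of_surjective hπ]

theorem Null.comap {π : V →ₗ[F] W} (hπ : Function.Surjective π) {k τ r : ℕ}
    (hr : finrank F (LinearMap.ker π) = r) {ψ : Submodule F V → ℂ} (h : Null (k + r) (τ + r) ψ) :
    Null k τ fun K : Submodule F W => ψ (K.comap π) := fun T hT => by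
  rw [N_comap hπ, hr]
  exact h _ (by rw [rank_comap hπ, hr]; omega)

theorem P.of_one {S : Set ℂ} {k n τ : ℕ} (hV : finrank F V = k + n) {ψ : Submodule F V → ℂ}
    (h1 : ∀ K, ψ K ∈ S) (h2 : Null k τ ψ) : P S k n τ := by
  intro W _ _ _ hW
  let e : V ≃ₗ[F] W := LinearEquiv.ofFinrankEq V W (hV.trans hW.symm)
  exact ⟨_, fun K => h1 _, Null.comap (π := e.toLinearMap) e.surjective (r := 0)
    (by rw [e.ker, finrank_bot]) h2⟩

/-- derived structures -/
theorem P.der {S : Set ℂ} {k n τ : ℕ} (h : P S (k + 1) n (τ + 1)) : P S k n τ := by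
  intro W _ _ _ hW
  have hs : Function.Surjective (LinearMap.fst F W F) := Prod.fst_surjective
  have h1 := rank_comap hs ⊤
  rw [comap_top, finrank_top, finrank_top, finrank_prod, finrank_self] at h1
  obtain ⟨ψ, h2, h3⟩ := h (W × F) (by rw [finrank_prod, finrank_self, hW]; omega)
  exact ⟨_, fun K => h2 _, Null.comap hs (r := 1) (by omega) h3⟩

theorem P.zero {S : Set ℂ} (h : 1 ∈ S) (k n : ℕ) : P S k n 0 := fun _ _ _ _ _ =>
  ⟨fun _ => 1, fun _ => h, fun _ hT => absurd hT (Nat.not_lt_zero _)⟩

open Classical in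
/-- passage to a subspace -/
theorem P.sub {S : Set ℂ} {k n τ : ℕ} (h : P S k n τ) (U : Submodule F V)
    (hU : finrank F U = k + n) : ∃ ψ : Submodule F V → ℂ, (∀ K, ψ K ∈ S) ∧
      ∀ T : Submodule F V, finrank F T < τ →
        ∑ A : Submodule F V, (if (finrank F A = k ∧ A ≤ U) ∧ T ≤ A then ψ A else 0) = 0 := by
  obtain ⟨ψ, h1, h2⟩ := h U hU
  refine ⟨fun A => ψ (A.comap U.subtype), fun K => h1 _, fun T hT => ?_⟩
  by_cases hTU : T ≤ U
  · refine Eq.trans ?_ (h2 (T.comap U.subtype) (by rwa [(comapSubtypeEquivOfLe hTU).finrank_eq]))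
    rw [N]
    refine (Finset.sum_of_injOn (fun K : Submodule F U => K.map U.subtype)
      (map_injective_of_injective U.injective_subtype).injOn (fun _ _ => by simp)
      (fun (L : Submodule F V) _ hL => if_neg fun h => hL ⟨L.comap U.subtype, by simp, ?_⟩)
      fun K _ => ?_).symm
    · exact (map_comap_subtype U L).trans (inf_eq_right.2 h.1.2)
    · have e : T.comap U.subtype ≤ K ↔ T ≤ K.map U.subtype := by
        rw [← map_le_map_iff_of_injective U.injective_subtype, map_comap_subtype,
          inf_eq_right.2 hTU]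
      simp only [finrank_map_subtype_eq, map_subtype_le, and_true, e,
        comap_map_eq_of_injective U.injective_subtype]
  · exact Finset.sum_eq_zero fun A _ => if_neg fun e => hTU (e.2.trans e.1.2)

theorem exists_pair {T : Submodule F V} (h : finrank F T < 3) :
    ∃ x y : V, ∀ K : Submodule F V, T ≤ K ↔ x ∈ K ∧ y ∈ K := by
  obtain ⟨g, hg⟩ := (finrank_le_iff_exists_linearMap (R := F) (M := T)
    (M' := F × F)).1 (by rw [finrank_prod, finrank_self]; omega)
  obtain ⟨f, hf⟩ := g.exists_leftInverse_of_injective (LinearMap.ker_eq_bot.2 hg)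
  refine ⟨f (1, 0), f (0, 1), fun K => ⟨fun e => ⟨e (f _).2, e (f _).2⟩, fun e t ht => ?_⟩⟩
  have h1 : (⟨t, ht⟩ : T) = (g ⟨t, ht⟩).1 • f (1, 0) + (g ⟨t, ht⟩).2 • f (0, 1) := by
    rw [← map_smul, ← map_smul, ← map_add]
    simpa using (LinearMap.congr_fun hf ⟨t, ht⟩).symm
  have h2 : t = (g ⟨t, ht⟩).1 • (f (1, 0) : V) + (g ⟨t, ht⟩).2 • (f (0, 1) : V) :=
    congrArg Subtype.val h1
  rw [h2]
  exact K.add_mem (K.smul_mem _ e.1) (K.smul_mem _ e.2)

theorem rank_pair (x y : V) : finrank F (span F {x, y}) < 3 := by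
  classical
  have h := finrank_span_finset_le_card (R := F) ({x, y} : Finset V)
  have h2 : ({x, y} : Finset V).card ≤ 2 := Finset.card_le_two
  rw [Set.finrank, Finset.coe_pair] at h
  omega

/-- the sign character -/
noncomputable def sg (a : F) : ℂ := if a = 0 then 1 else -1

theorem sg_add (a : F) : sg (a + 1) = -sg a := by
  rcases z2 a with rfl | rfl
  · simp [sg]
  · rw [show (1 : F) + 1 = 0 from rfl]
    simp [sg]

open Classical in
theorem char_sum [Fintype (Dual F V)] (L : Submodule F (Dual F V)) (x : V) :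
    ∑ f : Dual F V, (if f ∈ L then sg (f x) else 0) =
      if x ∈ L.dualCoannihilator then 2 ^ finrank F L else 0 := by
  split_ifs with h
  · rw [← card_sub]
    refine Finset.sum_congr rfl fun f _ => ?_
    split_ifs with hf
    exacts [if_pos ((mem_dualCoannihilator x).1 h f hf), rfl]
  · rw [mem_dualCoannihilator] at h
    push Not at h
    obtain ⟨g, hg, h1⟩ := h
    have h2 := Equiv.sum_comp (Equiv.addRight g) fun f => if f ∈ L then sg (f x) else 0
    have h3 : ∀ f : Dual F V, (if Equiv.addRight g f ∈ L then sg (Equiv.addRight g f x) else 0) =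
        -if f ∈ L then sg (f x) else 0 := fun f => by
      rw [Equiv.coe_addRight, LinearMap.add_apply, (z2 _).resolve_left h1, sg_add,
        L.add_mem_iff_left hg]
      split_ifs <;> simp
    rw [Finset.sum_congr rfl fun f _ => h3 f, Finset.sum_neg_distrib] at h2
    linear_combination (-1 / 2 : ℂ) * h2

open Classical in
/-- duality -/
theorem P.dual {S : Set ℂ} {k n : ℕ} (h : P S k n 3) : P S n k 3 := by
  intro V _ _ _ hV
  have : Finite (Dual F V) := Module.finite_of_finite F
  have := Fintype.ofFinite (Dual F V)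
  obtain ⟨ψ, h1, h2⟩ := h (Dual F V) (by rw [Subspace.dual_finrank_eq, hV, add_comm])
  refine ⟨fun K => ψ K.dualAnnihilator, fun K => h1 _, fun T hT => ?_⟩
  obtain ⟨x, y, hxy⟩ := exists_pair hT
  have e1 : N n (fun K => ψ K.dualAnnihilator) T = ∑ L : Submodule F (Dual F V),
      if finrank F L = k ∧ x ∈ L.dualCoannihilator ∧ y ∈ L.dualCoannihilator then ψ L else 0 := by
    refine Finset.sum_bij' (fun K _ => K.dualAnnihilator) (fun L _ => L.dualCoannihilator)
      (fun _ _ => by simp) (fun _ _ => by simp)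
      (fun K _ => Subspace.dualAnnihilator_dualCoannihilator_eq)
      (fun L _ => Subspace.dualCoannihilator_dualAnnihilator_eq) fun K _ => ?_
    refine if_congr ?_ rfl rfl
    have h3 := Subspace.finrank_add_finrank_dualAnnihilator_eq K
    rw [Subspace.dualAnnihilator_dualCoannihilator_eq, hxy]
    exact and_congr_left' (by omega)
  have e2 : ∀ L : Submodule F (Dual F V), 2 ^ k * 2 ^ k *
      (if finrank F L = k ∧ x ∈ L.dualCoannihilator ∧ y ∈ L.dualCoannihilator then ψ L else 0) =
      ∑ f : Dual F V, ∑ g : Dual F V, sg (f x) * sg (g y) *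
        if finrank F L = k ∧ span F {f, g} ≤ L then ψ L else 0 := fun L => by
    by_cases hL : finrank F L = k
    · have e3 : ∀ f g : Dual F V, sg (f x) * sg (g y) *
          (if finrank F L = k ∧ span F {f, g} ≤ L then ψ L else 0) =
          (if f ∈ L then sg (f x) else 0) * (if g ∈ L then sg (g y) else 0) * ψ L := fun f g => by
        rw [span_le, Set.pair_subset_iff]
        by_cases hf : f ∈ L <;> by_cases hg : g ∈ L <;> simp [hf, hg, hL]
      simp only [e3]
      simp only [← Finset.sum_mul, ← Finset.mul_sum, char_sum, hL, true_and]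
      by_cases hx : x ∈ L.dualCoannihilator <;> by_cases hy : y ∈ L.dualCoannihilator <;>
        simp only [hx, hy, if_true, if_false, and_self, and_false, false_and, mul_zero, zero_mul]
    · simp [hL]
  have e4 : (2 : ℂ) ^ k * 2 ^ k * N n (fun K => ψ K.dualAnnihilator) T = 0 := by
    rw [e1, Finset.mul_sum, Finset.sum_congr rfl fun L _ => e2 L, Finset.sum_comm]
    refine Finset.sum_eq_zero fun f _ => ?_
    rw [Finset.sum_comm]
    refine Finset.sum_eq_zero fun g _ => ?_
    rw [← Finset.mul_sum]
    exact mul_eq_zero_of_right _ (h2 _ (rank_pair f g))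
  simpa using e4

end Pool.Agent.MP_d1c425_co.H48
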