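import Pool.Agent.MP_d1c425_co.H48.Join

/-! Binary encodings, sums over the points of a subspace, and the lines of the 5-space. -/

set_option autoImplicit false
set_option linter.unusedSectionVars false

namespace Pool.Agent.MP_d1c425_co.H48

open Module Submodule Finset

section
variable {V : Type} [AddCommGroup V] [Module F V] [Fintype V]

theorem exists_step {T : Submodule F V} {t : ℕ} (h : finrank F T = t + 1) :
    ∃ (T' : Submodule F V) (y : V), finrank F T' = t ∧ y ∉ T' ∧ T = T' ⊔ span F {y} := by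
  have := Fintype.ofFinite T
  obtain ⟨U, -, u2, -⟩ := exists_flag (V := T)
  have h1 : finrank F ((U t).map T.subtype) = t := by
    rw [finrank_map_subtype_eq, u2 t (by omega)]
  obtain ⟨y, h2, h3⟩ := SetLike.exists_of_lt (lt_of_le_of_ne (map_subtype_le T (U t))
    fun e => by rw [e] at h1; omega)
  refine ⟨_, y, h1, h3, (eq_of_le_of_finrank_eq (sup_le (map_subtype_le T (U t))
    ((span_singleton_le_iff_mem _ _).2 h2)) ?_).symm⟩
  rw [finrank_sup_span_singleton h3, h1, h]

theorem add_self (v : V) : v + v = 0 := by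
  rw [← two_smul F v, show (2 : F) = 0 from rfl, zero_smul]

theorem mem_step {T : Submodule F V} {y v : V} : v ∈ T ⊔ span F {y} ↔ v ∈ T ∨ v + y ∈ T := by
  constructor
  · intro h
    obtain ⟨a, ha, b, hb, rfl⟩ := mem_sup.1 h
    obtain ⟨c, rfl⟩ := mem_span_singleton.1 hb
    rcases z2 c with rfl | rfl
    · exact Or.inl (by simpa using ha)
    · exact Or.inr (by rwa [one_smul, add_assoc, add_self, add_zero])
  · rintro (h | h)
    · exact mem_sup_left h
    · rw [← add_zero v, ← add_self y, ← add_assoc]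
      exact add_mem (mem_sup_left h) (mem_sup_right (mem_span_singleton_self y))
end

def dec (d n : ℕ) : Fin d → F := fun i => if n.testBit i then 1 else 0

theorem dec_xor (d a b : ℕ) : dec d (a ^^^ b) = dec d a + dec d b := by
  funext i
  simp only [dec, Nat.testBit_xor, Pi.add_apply]
  cases a.testBit i <;> cases b.testBit i <;> decide

theorem dec_zero (d : ℕ) : dec d 0 = 0 := by
  funext i
  simp [dec]

theorem dec_inj {d a b : ℕ} (ha : a < 2 ^ d) (hb : b < 2 ^ d) (h : dec d a = dec d b) : a = b := by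
  refine Nat.eq_of_testBit_eq fun i => ?_
  by_cases hi : i < d
  · have := congrFun h ⟨i, hi⟩
    simp only [dec] at this
    revert this
    cases a.testBit i <;> cases b.testBit i <;> decide
  · have h1 : 2 ^ d ≤ 2 ^ i := Nat.pow_le_pow_right (by norm_num) (by omega)
    rw [Nat.testBit_lt_two_pow (by omega), Nat.testBit_lt_two_pow (by omega)]

theorem dec_surj {d : ℕ} (v : Fin d → F) : ∃ n, n < 2 ^ d ∧ dec d n = v := by
  have h : Function.Injective fun n : Fin (2 ^ d) => dec d n := fun a b h =>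
    Fin.ext (dec_inj a.2 b.2 h)
  obtain ⟨n, hn⟩ := ((Fintype.bijective_iff_injective_and_card _).mpr ⟨h, by simp⟩).2 v
  exact ⟨n, n.2, hn⟩

theorem sum_dec {d : ℕ} (f : (Fin d → F) → ℂ) : ∑ v, f v = ∑ n ∈ range (2 ^ d), f (dec d n) :=
  (Finset.sum_nbij (dec d) (by simp) (fun a ha b hb => dec_inj (by simpa using ha)
    (by simpa using hb)) (fun v _ => by simpa using dec_surj v) fun _ _ => rfl).symm

theorem mem_bot_dec {d n : ℕ} (h : n < 2 ^ d) : dec d n ∈ (⊥ : Submodule F (Fin d → F)) ↔ n = 0 :=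
  ⟨fun e => dec_inj h (Nat.two_pow_pos d) (e.trans (dec_zero d).symm), fun e => e ▸ dec_zero d⟩

theorem mem_step_dec {d : ℕ} {T : Submodule F (Fin d → F)} {y n : ℕ} :
    dec d n ∈ T ⊔ span F {dec d y} ↔ dec d n ∈ T ∨ dec d (n ^^^ y) ∈ T := by
  rw [mem_step, dec_xor]

open Classical in
/-- the sum of a weight over the points of a subspace -/
noncomputable def S {M : Type} [AddCommMonoid M] (d : ℕ) (w : ℕ → M)
    (K : Submodule F (Fin d → F)) : M :=
  ∑ n ∈ range (2 ^ d), if dec d n ∈ K then w n else 0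

theorem S_bot {M : Type} [AddCommMonoid M] (d : ℕ) (w : ℕ → M) : S d w ⊥ = w 0 := by
  rw [S, Finset.sum_eq_single 0, if_pos ((mem_bot_dec (Nat.two_pow_pos d)).2 rfl)]
  · exact fun n hn e => if_neg fun h => e ((mem_bot_dec (mem_range.1 hn)).1 h)
  · simp

theorem S_step {M : Type} [AddCommMonoid M] {d : ℕ} (w : ℕ → M) {T : Submodule F (Fin d → F)}
    {y : ℕ} (hy : y < 2 ^ d) (h : dec d y ∉ T) :
    S d w (T ⊔ span F {dec d y}) = S d w T + S d (fun n => w (n ^^^ y)) T := by
  classical
  have e : S d (fun n => w (n ^^^ y)) T =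
      ∑ n ∈ range (2 ^ d), if dec d (n ^^^ y) ∈ T then w n else 0 :=
    Finset.sum_nbij' (· ^^^ y) (· ^^^ y)
      (fun n hn => mem_range.2 (Nat.xor_lt_two_pow (mem_range.1 hn) hy))
      (fun n hn => mem_range.2 (Nat.xor_lt_two_pow (mem_range.1 hn) hy))
      (fun n _ => Nat.xor_xor_cancel_right n y) (fun n _ => Nat.xor_xor_cancel_right n y)
      fun n _ => by simp only [Nat.xor_xor_cancel_right]
  rw [e, S, S, ← Finset.sum_add_distrib]
  refine Finset.sum_congr rfl fun n _ => ?_
  rw [mem_step_dec]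
  by_cases h1 : dec d n ∈ T <;> by_cases h2 : dec d (n ^^^ y) ∈ T
  · exact absurd ((T.add_mem_iff_right h1).1 (dec_xor d n y ▸ h2)) h
  all_goals simp [h1, h2]

/-- a loop that the kernel runs -/
def sumTo (g : ℕ → ℕ) (n : ℕ) : ℕ := Nat.rec 0 (fun k a => Nat.add (g k) a) n

theorem sumTo_eq (g : ℕ → ℕ) (n : ℕ) : sumTo g n = ∑ k ∈ range n, g k := by
  induction n with
  | zero => rfl
  | succ n ih => rw [Finset.sum_range_succ_comm, ← ih]; rfl

def allTo (g : ℕ → Bool) (n : ℕ) : Bool := Nat.rec true (fun k a => g k && a) n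

theorem allTo_spec {g : ℕ → Bool} {n : ℕ} (h : allTo g n = true) : ∀ k < n, g k = true := by
  induction n with
  | zero => exact fun k hk => absurd hk (Nat.not_lt_zero k)
  | succ n ih =>
    obtain ⟨h1, h2⟩ := Bool.and_eq_true_iff.1 (show (g n && allTo g n) = true from h)
    intro k hk
    rcases Nat.lt_succ_iff_lt_or_eq.1 hk with hk | rfl
    exacts [ih h2 k hk, h1]

/-- a primitive fifth root of unity -/
noncomputable def ζ : ℂ := Complex.exp (2 * Real.pi * Complex.I / (5 : ℕ))

theorem hζ : IsPrimitiveRoot ζ 5 := Complex.isPrimitiveRoot_exp 5 (by norm_num)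

theorem ζ_mem (a : ℕ) : ζ ^ a ∈ mu := by
  change (ζ ^ a) ^ 5 = 1
  rw [← pow_mul, mul_comm, pow_mul, hζ.pow_eq_one, one_pow]

theorem ζ_sum : 1 + ζ + ζ ^ 2 + ζ ^ 3 + ζ ^ 4 = 0 := by
  have h := hζ.geom_sum_eq_zero (by norm_num)
  simpa [Finset.sum_range_succ] using h

theorem decode {n c e : ℕ} (hn : n < 2048) (hc : c < 2048) (p : ℕ → Bool) (f : ℕ → ℕ)
    (h : sumTo (fun k => 2048 ^ (bif p k then 5 else f k % 5)) n =
      c * 17600780175361 + e * 36028797018963968) :
    ∑ k ∈ range n, (if p k then 0 else ζ ^ (f k % 5)) = 0 := by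
  let g : ℕ → ℕ := fun k => bif p k then 5 else f k % 5
  have hg : ∀ k ∈ range n, g k ∈ range 6 := fun k _ => by
    have := Nat.mod_lt (f k) (show 0 < 5 by norm_num)
    simp only [g, mem_range]
    cases p k <;> simp only [cond_true, cond_false] <;> omega
  have h1 : ∀ i, #{k ∈ range n | g k = i} ≤ n := fun i =>
    (card_filter_le _ _).trans (card_range n).le
  have h2 := Finset.sum_fiberwise_of_maps_to' hg fun i => 2048 ^ i
  have h3 := Finset.sum_fiberwise_of_maps_to' hg fun i => if i = 5 then 0 else ζ ^ i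
  replace h2 := h2.trans ((sumTo_eq _ _).symm.trans h)
  simp only [Finset.sum_const, smul_eq_mul, nsmul_eq_mul, Finset.sum_range_succ,
    Finset.range_zero, Finset.sum_empty] at h2 h3
  have a0 := h1 0
  have a1 := h1 1
  have a2 := h1 2
  have a3 := h1 3
  have a4 := h1 4
  have e0 : #{k ∈ range n | g k = 0} = c := by omega
  have e1 : #{k ∈ range n | g k = 1} = c := by omega
  have e2 : #{k ∈ range n | g k = 2} = c := by omega
  have e3 : #{k ∈ range n | g k = 3} = c := by omega
  have e4 : #{k ∈ range n | g k = 4} = c := by omega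
  rw [e0, e1, e2, e3, e4] at h3
  refine (Finset.sum_congr rfl fun k _ => ?_).trans (h3.symm.trans ?_)
  · have := Nat.mod_lt (f k) (show 0 < 5 by norm_num)
    simp only [g]
    cases p k
    · simp only [cond_false]
      rw [if_neg (by simp), if_neg (by omega)]
    · simp
  · norm_num
    linear_combination c * ζ_sum

open Classical in
theorem N_zero {d t c e : ℕ} (hd : 2 ^ d < 2048) (hc : c < 2048)
    {ψ : Submodule F (Fin d → F) → ℂ} {T : Submodule F (Fin d → F)} (hT : finrank F T = t)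
    (p : ℕ → Bool) (f : ℕ → ℕ) (hp : ∀ z < 2 ^ d, dec d z ∈ T ↔ p z = true)
    (hf : ∀ z < 2 ^ d, dec d z ∉ T → ψ (T ⊔ span F {dec d z}) = ζ ^ (f z % 5))
    (h : sumTo (fun k => 2048 ^ (bif p k then 5 else f k % 5)) (2 ^ d) =
      c * 17600780175361 + e * 36028797018963968) : N (t + 1) ψ T = 0 := by
  have h1 := N_eq ψ hT
  rw [sum_dec, Finset.sum_congr rfl fun z hz => if_ctx_congr (hp z (mem_range.1 hz))
    (fun _ => rfl) fun e => hf z (mem_range.1 hz) (mt (hp z (mem_range.1 hz)).1 e),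
    decode hd hc p f h, eq_comm] at h1
  simpa using h1

def wB (n : ℕ) : ℕ := (fun l => l + 128 * l ^ 2) (719976087585702537242947323940304841317326324736 >>> (5 * n) % 32)

def cB (s : ℕ) : ℕ := 77484589539159912864546816 >>> (3 * ((3 * (s / 128) + 30 * (s % 128) ^ 2) % 31)) % 8

theorem chkB : allTo (fun x => x == 0 || sumTo (fun z => 2048 ^ (bif z == 0 || z ^^^ x == 0 then 5
    else cB (wB 0 + wB (0 ^^^ x) + (wB (0 ^^^ z) + wB (0 ^^^ x ^^^ z))) % 5)) (2 ^ 5) ==
      6 * 17600780175361 + 2 * 36028797018963968) (2 ^ 5) = true := by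
  decide +kernel

theorem baseB : P mu 2 3 2 := by
  refine P.of_one (V := Fin 5 → F) (finrank_fin_fun F) (ψ := fun K => ζ ^ (cB (S 5 wB K) % 5))
    (fun K => ζ_mem _) (null_of_top one_le_two fun T hT => ?_)
  obtain ⟨T', v, h2, h3, rfl⟩ := exists_step hT
  obtain rfl := Submodule.finrank_eq_zero.1 h2
  obtain ⟨x, hx, rfl⟩ := dec_surj v
  have h4 := allTo_spec chkB x hx
  rw [Bool.or_eq_true, beq_iff_eq, beq_iff_eq, or_iff_right (mt (mem_bot_dec hx).2 h3)] at h4
  refine N_zero (by norm_num) (by norm_num) hT _ _ (fun z hz => ?_) (fun z hz e => ?_) h4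
  · simp only [mem_step_dec, mem_bot_dec hz, mem_bot_dec (Nat.xor_lt_two_pow hz hx),
      Bool.or_eq_true, beq_iff_eq]
  · simp only [S_step _ hz e, S_step _ hx h3, S_bot]

end Pool.Agent.MP_d1c425_co.H48
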