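import Mathlib

set_option autoImplicit false

namespace Pool.Agent.MP_d1c425_co.H48

/-- `D` is a `2-(v,k,lam)_2` subspace design: its members are `k`-subspaces of `F_2^v` and every
2-subspace lies in exactly `lam` of them. -/
def IsDes (v k lam : ℕ) (D : Set (Submodule (ZMod 2) (Fin v → ZMod 2))) : Prop :=
  (∀ B ∈ D, Module.finrank (ZMod 2) B = k) ∧
    ∀ T : Submodule (ZMod 2) (Fin v → ZMod 2), Module.finrank (ZMod 2) T = 2 →
      {B | B ∈ D ∧ T ≤ B}.ncard = lam

end Pool.Agent.MP_d1c425_co.H48
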