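import Pool.Agent.MP_d1c425_co.H48.Core

/-! The subspaces with a given intersection with the kernel and a given image. -/

set_option autoImplicit false
set_option linter.unusedSectionVars false

namespace Pool.Agent.MP_d1c425_co.H48

open Module Submodule Finset

variable {V W Y : Type} [AddCommGroup V] [Module F V] [Fintype V] [AddCommGroup W] [Module F W]
  [Fintype W] [AddCommGroup Y] [Module F Y] [Fintype Y]

open Classical in
/-- equidistribution on a coset -/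
theorem equi (Z : Submodule F V) (Φ : V →+ W) (h : ∀ x, ∃ z ∈ Z, Φ z = x) (v : V) (g : W → ℂ) :
    2 ^ finrank F W * ∑ u : V, (if u - v ∈ Z then g (Φ u) else 0) =
      2 ^ finrank F Z * ∑ x, g x := by
  have h1 : ∀ x : W, ∑ u : V, (if u - v ∈ Z then g (Φ u) else 0) =
      ∑ u : V, (if u - v ∈ Z then g (Φ u + x) else 0) := fun x => by
    obtain ⟨z, hz, rfl⟩ := h x
    rw [← Equiv.sum_comp (Equiv.addRight z)]
    refine Finset.sum_congr rfl fun u _ => ?_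
    rw [Equiv.coe_addRight, map_add, add_sub_right_comm, Z.add_mem_iff_left hz]
  have h2 := card_sub (⊤ : Submodule F W)
  simp only [mem_top, if_true, finrank_top] at h2
  rw [← h2, Finset.sum_mul, Finset.sum_congr rfl fun x _ => (one_mul _).trans (h1 x),
    Finset.sum_comm, ← card_sub,
    ← Equiv.sum_comp (Equiv.subRight v) fun u => if u ∈ Z then (1 : ℂ) else 0, Finset.sum_mul]
  refine Finset.sum_congr rfl fun u _ => ?_
  rw [Equiv.subRight_apply]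
  split_ifs
  · rw [one_mul]
    exact Equiv.sum_comp (Equiv.addLeft (Φ u)) g
  · simp

theorem factor (π : V →ₗ[F] W) (ρ : V →ₗ[F] Y) (T : Submodule F V)
    (h : ∀ v ∈ T, π v = 0 → ρ v = 0) : ∃ φ : W →ₗ[F] Y, ∀ v ∈ T, φ (π v) = ρ v := by
  obtain ⟨σ, hσ⟩ := (π.domRestrict T).rangeRestrict.exists_rightInverse_of_surjective
    (LinearMap.range_rangeRestrict _)
  obtain ⟨φ, hφ⟩ := (ρ ∘ₗ T.subtype ∘ₗ σ).exists_extend
  refine ⟨φ, fun v hv => ?_⟩
  let w := (π.domRestrict T).rangeRestrict ⟨v, hv⟩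
  have h1 : π (σ w) = π v := congrArg Subtype.val (LinearMap.congr_fun hσ w)
  have h2 : φ (π v) = ρ (σ w) := LinearMap.congr_fun hφ w
  rw [h2, ← sub_eq_zero, ← map_sub]
  exact h _ (T.sub_mem (σ w).2 hv) (by rw [map_sub, h1, sub_self])

theorem exists_rho {π : V →ₗ[F] W} (hπ : Function.Surjective π) {A : Submodule F V}
    (hA : A ≤ LinearMap.ker π) {y : ℕ} (hy : finrank F (LinearMap.ker π) = finrank F A + y) :
    ∃ ρ : V →ₗ[F] (Fin y → F), (∀ v, v ∈ A ↔ π v = 0 ∧ ρ v = 0) ∧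
      ∀ w z, ∃ v, π v = w ∧ ρ v = z := by
  let A' := A.comap (LinearMap.ker π).subtype
  have h1 := A'.finrank_quotient_add_finrank
  rw [(comapSubtypeEquivOfLe hA).finrank_eq] at h1
  let e : (LinearMap.ker π ⧸ A') ≃ₗ[F] (Fin y → F) :=
    LinearEquiv.ofFinrankEq _ _ (by rw [finrank_fin_fun]; omega)
  obtain ⟨ρ, hρ⟩ := (e.toLinearMap ∘ₗ A'.mkQ).exists_extend
  have h2 : ∀ v : LinearMap.ker π, ρ v = e (A'.mkQ v) := fun v => LinearMap.congr_fun hρ v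
  have h3 : ∀ v : LinearMap.ker π, ρ v = 0 ↔ v.1 ∈ A := fun v => by
    rw [h2, e.map_eq_zero_iff, mkQ_apply, Quotient.mk_eq_zero]
    rfl
  refine ⟨ρ, fun v => ⟨fun h => ⟨hA h, (h3 ⟨v, hA h⟩).2 h⟩, fun h => (h3 ⟨v, h.1⟩).1 h.2⟩,
    fun w z => ?_⟩
  obtain ⟨v, rfl⟩ := hπ w
  obtain ⟨u, hu⟩ := A'.mkQ_surjective (e.symm (z - ρ v))
  refine ⟨v + u, by rw [map_add, u.2, add_zero], ?_⟩
  rw [map_add, h2, hu, e.apply_symm_apply, add_sub_cancel]

/-- multiplication in the field with eight elements -/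
def mul8 (B : Fin 3 → Fin 3 → F) : Fin 3 → F :=
  ![B 0 0 + B 1 2 + B 2 1, B 0 1 + B 1 0 + B 1 2 + B 2 1 + B 2 2, B 0 2 + B 1 1 + B 2 0 + B 2 2]

theorem mul8_add (B C : Fin 3 → Fin 3 → F) : mul8 (B + C) = mul8 B + mul8 C := by
  funext i
  fin_cases i <;> simp [mul8] <;> ring

theorem mul8_surj : ∀ a : Fin 3 → F, a ≠ 0 → ∀ x, ∃ b : Fin 3 → F,
    mul8 (fun i j => a i * b j) = x := by
  decide +kernel

theorem exists_Phi {m y : ℕ} (hm : m = 0 ∨ m = 3 ∧ 3 ≤ y ∧ 3 ≤ finrank F W) :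
    ∃ Φ : (W →ₗ[F] (Fin y → F)) →+ (Fin m → F), ∀ T : Submodule F W, finrank F T < 3 →
      ∀ x, ∃ z, T ≤ LinearMap.ker z ∧ Φ z = x := by
  rcases hm with rfl | ⟨rfl, hy, hW⟩
  · exact ⟨0, fun T _ x => ⟨0, by simp, Subsingleton.elim _ _⟩⟩
  obtain ⟨e, he⟩ := (finrank_le_iff_exists_linearMap (R := F) (M := Fin 3 → F) (M' := W)).1
    (by rwa [finrank_fin_fun])
  refine ⟨AddMonoidHom.mk' (fun φ => mul8 fun i j => φ (e (Pi.single i 1)) (Fin.castLE hy j))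
    fun φ φ' => mul8_add _ _, fun T hT x => ?_⟩
  obtain ⟨u, hu⟩ : ∃ u, e u ∉ T := by
    by_contra hc
    push Not at hc
    have h1 := finrank_mono (show LinearMap.range e ≤ T by rintro _ ⟨u, rfl⟩; exact hc u)
    rw [LinearMap.finrank_range_of_inj he, finrank_fin_fun] at h1
    omega
  obtain ⟨f, h1, h2⟩ := T.exists_dual_map_eq_bot_of_notMem hu inferInstance
  obtain ⟨b, hb⟩ := mul8_surj (fun i => f (e (Pi.single i 1))) (fun h => h1 (by
    have h3 : f ∘ₗ e = 0 := (Pi.basisFun F (Fin 3)).ext fun i => by simpa using congrFun h i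
    exact LinearMap.congr_fun h3 u)) x
  refine ⟨f.smulRight fun t => if h : t.1 < 3 then b ⟨t, h⟩ else 0, fun v hv => ?_, ?_⟩
  · have h3 : f v = 0 := (h2 ▸ mem_map_of_mem hv : f v ∈ (⊥ : Submodule F F))
    simp [h3]
  · rw [← hb, AddMonoidHom.mk'_apply]
    refine congrArg mul8 (funext fun i => funext fun j => ?_)
    simp

open Classical in
theorem fibre {π : V →ₗ[F] W} (hπ : Function.Surjective π) {A : Submodule F V}
    (hA : A ≤ LinearMap.ker π) (L : Submodule F W) {m y : ℕ}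
    (hy : finrank F (LinearMap.ker π) = finrank F A + y)
    (hm : m = 0 ∨ m = 3 ∧ 3 ≤ y ∧ 3 ≤ finrank F L) (g : (Fin m → F) → ℂ) :
    ∃ χ : Submodule F V → ℂ, (∀ K, ∃ x, χ K = g x) ∧ ∀ T : Submodule F V, finrank F T < 3 →
      2 ^ m * ∑ K : Submodule F V,
        (if (K ⊓ LinearMap.ker π = A ∧ K.map π = L) ∧ T ≤ K then χ K else 0) =
      if T ⊓ LinearMap.ker π ≤ A ∧ T.map π ≤ L then
        2 ^ ((finrank F L - finrank F (T.map π)) * y) * ∑ x, g x else 0 := by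
  obtain ⟨ρ, hρ, hs⟩ := exists_rho hπ hA hy
  obtain ⟨Φ, hΦ⟩ := exists_Phi (W := L) hm
  let G : (L →ₗ[F] (Fin y → F)) → Submodule F V := fun φ =>
    (LinearMap.range (L.subtype.prod φ)).comap (π.prod ρ)
  have hG : ∀ φ v, v ∈ G φ ↔ ∃ h : π v ∈ L, φ ⟨π v, h⟩ = ρ v := fun φ v =>
    ⟨fun ⟨x, hx⟩ => by
      obtain ⟨h1, h2⟩ := Prod.ext_iff.1 hx
      have h3 : x.1 = π v := h1
      exact ⟨h3 ▸ x.2, by rw [← show x = ⟨π v, h3 ▸ x.2⟩ from Subtype.ext h3]; exact h2⟩,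
    fun ⟨h, e⟩ => ⟨⟨π v, h⟩, Prod.ext rfl e⟩⟩
  have hi : Function.Injective G := fun φ φ' e => LinearMap.ext fun x => by
    obtain ⟨v, h1, h2⟩ := hs x (φ x)
    obtain ⟨x, hx⟩ := x
    obtain rfl : π v = x := h1
    obtain ⟨_, h3⟩ := (hG φ' v).1 (e ▸ (hG φ v).2 ⟨hx, h2.symm⟩)
    rw [h3, h2]
  have h1 : ∀ φ, G φ ⊓ LinearMap.ker π = A ∧ (G φ).map π = L := fun φ => by
    refine ⟨Submodule.ext fun v => ?_, le_antisymm ?_ fun w hw => ?_⟩
    · rw [hρ, Submodule.mem_inf, hG, LinearMap.mem_ker]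
      refine ⟨fun ⟨⟨h, e⟩, e'⟩ => ⟨e', ?_⟩, fun ⟨e, e'⟩ => ⟨⟨e ▸ L.zero_mem, ?_⟩, e⟩⟩
      · rw [← e, show (⟨π v, h⟩ : L) = 0 from Subtype.ext e', map_zero]
      · rw [e', show (⟨π v, e ▸ L.zero_mem⟩ : L) = 0 from Subtype.ext e, map_zero]
    · rintro _ ⟨v, hv, rfl⟩
      exact ((hG φ v).1 hv).1
    · obtain ⟨v, rfl, h2⟩ := hs w (φ ⟨w, hw⟩)
      exact mem_map_of_mem ((hG φ v).2 ⟨hw, h2.symm⟩)
  have h2 : ∀ T : Submodule F V, T ⊓ LinearMap.ker π ≤ A → T.map π ≤ L → ∃ φ, T ≤ G φ :=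
    fun T e e' => by
      obtain ⟨φ, hφ⟩ := factor π ρ T fun v hv h => ((hρ v).1 (e ⟨hv, h⟩)).2
      exact ⟨φ ∘ₗ L.subtype, fun v hv => (hG _ v).2 ⟨e' (mem_map_of_mem hv), hφ v hv⟩⟩
  have : Finite (L →ₗ[F] (Fin y → F)) := Module.finite_of_finite F
  have := Fintype.ofFinite (L →ₗ[F] (Fin y → F))
  refine ⟨fun K => g (Φ (Function.invFun G K)), fun K => ⟨_, rfl⟩, fun T hT => ?_⟩
  have h3 : ∑ K : Submodule F V, (if (K ⊓ LinearMap.ker π = A ∧ K.map π = L) ∧ T ≤ K then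
      g (Φ (Function.invFun G K)) else 0) = ∑ φ, if T ≤ G φ then g (Φ φ) else 0 := by
    refine (Finset.sum_of_injOn G hi.injOn (fun _ _ => by simp)
      (fun K _ hK => if_neg fun h => ?_) fun φ _ => ?_).symm
    · obtain ⟨φ, hφ⟩ := h2 K h.1.1.le h.1.2.le
      refine hK ⟨φ, by simp, (eq_of_le_of_finrank_eq hφ ?_).symm⟩
      rw [← rank_map π K, ← rank_map π (G φ), h.1.1, h.1.2, (h1 φ).1, (h1 φ).2]
    · rw [Function.leftInverse_invFun hi φ]
      exact if_congr (and_iff_right (h1 φ)).symm rfl rfl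
  rw [h3]
  split_ifs with h
  · obtain ⟨φ0, h0⟩ := h2 T h.1 h.2
    let T' := (T.map π).comap L.subtype
    have hT' : finrank F T' = finrank F (T.map π) := (comapSubtypeEquivOfLe h.2).finrank_eq
    let R : (L →ₗ[F] (Fin y → F)) →ₗ[F] (T' →ₗ[F] (Fin y → F)) := LinearMap.lcomp F _ T'.subtype
    have h4 := R.finrank_range_add_finrank_ker
    rw [LinearMap.range_eq_top.2 fun φ => φ.exists_extend, finrank_top, finrank_linearMap,
      finrank_linearMap, finrank_fin_fun, hT'] at h4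
    have h5 := equi (LinearMap.ker R) Φ (fun x => by
      obtain ⟨z, h6, h7⟩ := hΦ T' (by rw [hT']; exact (finrank_map_le _ _).trans_lt hT) x
      exact ⟨z, LinearMap.ext fun t => h6 t.2, h7⟩) φ0 g
    rw [finrank_fin_fun] at h5
    rw [Nat.sub_mul, ← h4, add_tsub_cancel_left, ← h5]
    congr 1
    refine Finset.sum_congr rfl fun φ _ => if_congr ⟨fun e => LinearMap.ext fun t => ?_,
      fun e v hv => ?_⟩ rfl rfl
    · obtain ⟨⟨w, hw⟩, v, hv, e'⟩ := t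
      obtain rfl : π v = w := e'
      exact sub_eq_zero.2 (((hG φ v).1 (e hv)).2.trans ((hG φ0 v).1 (h0 hv)).2.symm)
    · obtain ⟨h6, h7⟩ := (hG φ0 v).1 (h0 hv)
      exact (hG φ v).2 ⟨h6, (sub_eq_zero.1
        (LinearMap.congr_fun e ⟨⟨π v, h6⟩, mem_map_of_mem hv⟩)).trans h7⟩
  · rw [Finset.sum_eq_zero, mul_zero]
    exact fun φ _ => if_neg fun e => h ⟨(h1 φ).1 ▸ inf_le_inf_right _ e, (h1 φ).2 ▸ map_mono e⟩

end Pool.Agent.MP_d1c425_co.H48
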