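import Pool.Agent.MP_d1c425_co.H48.BaseA
import Pool.Agent.MP_d1c425_co.H48.Defs
import Pool.Agent.MP_d1c425_co.Main

/-! The recursion and the passage to large sets. -/

set_option autoImplicit false

namespace Pool.Agent.MP_d1c425_co.H48

open Module Submodule Finset

theorem sum_ncard {α : Type} [Fintype α] (p : α → Prop) [DecidablePred p] :
    ∑ a, (if p a then (1 : ℂ) else 0) = {a | p a}.ncard := by
  rw [Finset.sum_boole, ← Set.ncard_coe_finset]
  simp

open Classical in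
theorem baseC : P {1, -4} 3 3 3 := by
  obtain ⟨D, hD, -⟩ := three
  refine P.of_one (V := Fin 6 → F) (finrank_fin_fun F) (ψ := fun K => if K ∈ D 0 then -4 else 1)
    (fun K => by split_ifs <;> simp) (null_of_top (by norm_num) fun T hT => ?_)
  have h1 := N_eq (fun _ => 1) hT
  have h2 := card_sub (⊤ : Submodule F (Fin 6 → F))
  have h3 := card_sub T
  have h4 := sum_ncard fun B => B ∈ D 0 ∧ T ≤ B
  rw [(hD 0).2 T hT] at h4
  have h5 : N 3 (fun K => if K ∈ D 0 then -4 else 1) T =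
      N 3 (fun _ => 1) T - 5 * ∑ B, if B ∈ D 0 ∧ T ≤ B then (1 : ℂ) else 0 := by
    rw [N, N, Finset.mul_sum, ← Finset.sum_sub_distrib]
    refine Finset.sum_congr rfl fun K _ => ?_
    by_cases a : K ∈ D 0
    · by_cases b : T ≤ K <;> simp [a, b, (hD 0).1 K a]
      norm_num
    · simp [a]
  have h6 : ∑ y : Fin 6 → F, (if y ∈ T then (0 : ℂ) else 1) = 2 ^ 6 - 2 ^ 2 := by
    rw [finrank_top, finrank_fin_fun] at h2
    rw [hT] at h3
    rw [← h2, ← h3, ← Finset.sum_sub_distrib]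
    exact Finset.sum_congr rfl fun y _ => by split_ifs <;> simp_all
  rw [h5, h4]
  linear_combination (-1 / 4 : ℂ) * (h1.symm.trans h6).symm

theorem J_plain {i s j n τ₁ τ₂ : ℕ} (h1 : P mu i s τ₁) (h2 : P mu j n τ₂) (h : 3 ≤ τ₁ + τ₂) :
    J i s j n :=
  ⟨mu, mu, τ₁, τ₂, 0, 1, h1, h2, h, Or.inl rfl, fun a ha b hb => ⟨fun _ => a * b,
    fun _ => (mul_pow a b 5).trans
      (by rw [show a ^ 5 = 1 from ha, show b ^ 5 = 1 from hb, one_mul]), by simp⟩⟩

theorem eight {a : ℂ} (h : a ∈ ({1, -4} : Set ℂ)) : ∃ g : (Fin 3 → F) → ℂ, (∀ x, g x ∈ mu) ∧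
    ∑ x, g x = a * (1 + ζ + ζ ^ 2) := by
  let e : (Fin 3 → F) ≃ Fin 8 := Fintype.equivFinOfCardEq (by simp)
  rcases h with rfl | rfl
  · refine ⟨fun x => ζ ^ (![0, 0, 1, 1, 2, 2, 3, 4] (e x)), fun x => ζ_mem _, ?_⟩
    rw [e.sum_comp fun x => ζ ^ (![0, 0, 1, 1, 2, 2, 3, 4] x), Fin.sum_univ_eight]
    simp
    linear_combination ζ_sum
  · refine ⟨fun x => ζ ^ (![3, 3, 3, 3, 4, 4, 4, 4] (e x)), fun x => ζ_mem _, ?_⟩
    rw [e.sum_comp fun x => ζ ^ (![3, 3, 3, 3, 4, 4, 4, 4] x), Fin.sum_univ_eight]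
    simp
    linear_combination 4 * ζ_sum

theorem J_right (i : ℕ) {s : ℕ} (h : 2 ≤ s) : J i s 3 3 :=
  ⟨{1}, _, 0, 3, 3, 1 + ζ + ζ ^ 2, P.zero (Set.mem_singleton 1) i s, baseC, le_rfl,
    Or.inr ⟨rfl, by omega, le_rfl⟩,
    fun a ha b hb => by rw [show a = 1 from ha, one_mul]; exact eight hb⟩

theorem J_left {j : ℕ} (h : 3 ≤ j) (n : ℕ) : J 3 3 j n :=
  ⟨_, {1}, 3, 0, 3, 1 + ζ + ζ ^ 2, baseC, P.zero (Set.mem_singleton 1) j n, le_rfl,
    Or.inr ⟨rfl, by omega, h⟩,
    fun a ha b hb => by rw [show b = 1 from hb, mul_one]; exact eight ha⟩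

theorem down {n i : ℕ} (h : P mu (4 * (i / 4) + 3) n 3) : P mu i n (i % 4) := by
  obtain ⟨a, r, rfl, hr⟩ : ∃ a r, i = 4 * a + r ∧ r < 4 := ⟨i / 4, i % 4, by omega, by omega⟩
  rw [show (4 * a + r) / 4 = a by omega] at h
  rw [show (4 * a + r) % 4 = r by omega]
  interval_cases r
  exacts [h.der.der.der, h.der.der, h.der, h]

theorem small {j : ℕ} (h : j < 3) : P mu j 3 (j % 4) := by
  interval_cases j
  exacts [baseB.der.der, baseB.der, baseB]

theorem column (b : ℕ) : P mu 3 (4 * b + 7) 3 := by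
  induction b with
  | zero => exact baseA
  | succ b ih =>
    refine cut (s := 4 * b + 7) (n := 3) fun i j e => ?_
    by_cases q : j = 3
    · subst q
      exact J_right i (by omega)
    · exact J_plain (down (by rwa [show i / 4 = 0 by omega])) (small (by omega)) (by omega)

theorem row {j : ℕ} (h : j ≠ 3) : P mu j 3 (j % 4) := by
  by_cases q : j < 3
  · exact small q
  · refine down ?_
    rw [show 4 * (j / 4) + 3 = 4 * (j / 4 - 1) + 7 by omega]
    exact (column _).dual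

theorem main (b a : ℕ) : P mu (4 * a + 3) (4 * b + 7) 3 := by
  induction b generalizing a with
  | zero =>
    rcases a with _ | a
    · exact baseA
    refine cut (s := 3) (n := 3) fun i j e => ?_
    by_cases q : j = 3
    · subst q
      exact J_right i (by omega)
    by_cases q' : i = 3
    · subst q'
      exact J_left (by omega) 3
    · exact J_plain (row q') (row q) (by omega)
  | succ b ih =>
    refine cut (s := 4 * b + 7) (n := 3) fun i j e => ?_
    by_cases q : j = 3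
    · subst q
      exact J_right i (by omega)
    · exact J_plain (down (ih _)) (row q) (by omega)

open Classical in
theorem large {v k n : ℕ} (hv : v = k + 2 + n) (h : P mu (k + 2) n 3) :
    ∃ (lam : ℕ) (D : Fin 5 → Set (Submodule F (Fin v → F))), (∀ i, IsDes v (k + 2) lam (D i)) ∧
      (Pairwise fun i j => Disjoint (D i) (D j)) ∧
      ∀ B : Submodule F (Fin v → F), finrank F B = k + 2 → ∃ i, B ∈ D i := by
  obtain ⟨ψ, h1, h2⟩ := h (Fin v → F) (by rw [finrank_fin_fun, hv])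
  have h3 : ∀ K, ∃ i : Fin 5, ψ K = ζ ^ i.1 := fun K => by
    obtain ⟨i, a, b⟩ := hζ.eq_pow_of_pow_eq_one (h1 K)
    exact ⟨⟨i, a⟩, b.symm⟩
  choose c hc using h3
  refine ⟨{K : Submodule F (Fin (k + n) → F) | finrank F K = k ∧ ⊥ ≤ K}.ncard / 5,
    fun i => {K | finrank F K = k + 2 ∧ c K = i},
    fun i => ⟨fun B hB => hB.1, fun (T : Submodule F (Fin v → F)) (hT : finrank F T = 2) => ?_⟩,
    fun i j e => Set.disjoint_left.2 fun K a b => e (a.2.symm.trans b.2),
    fun B hB => ⟨c B, hB, rfl⟩⟩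
  let α : Fin 5 → ℕ := fun i =>
    {B : Submodule F (Fin v → F) | (finrank F B = k + 2 ∧ c B = i) ∧ T ≤ B}.ncard
  have h4 : ∀ u : Fin 5 → ℂ, N (k + 2) (fun K => u (c K)) T = ∑ i, α i * u i := fun u => by
    simp only [α, ← sum_ncard, Finset.sum_mul]
    rw [Finset.sum_comm]
    refine Finset.sum_congr rfl fun K _ => ?_
    rw [Finset.sum_eq_single (c K)]
    · simp
    · exact fun i _ e => by simp [e.symm]
    · simp
  have h5 := (hζ.sum_eq_zero_iff_forall_eq_int Nat.prime_five fun i => α i).1 (by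
    have h6 := h4 fun i => ζ ^ i.1
    simp only [← hc] at h6
    simpa using h6.symm.trans (h2 T (by omega)))
  have h7 := T.finrank_quotient_add_finrank
  let e : ((Fin v → F) ⧸ T) ≃ₗ[F] (Fin (k + n) → F) :=
    LinearEquiv.ofFinrankEq _ _ (by rw [finrank_fin_fun] at h7 ⊢; omega)
  have h8 : LinearMap.ker (e.toLinearMap ∘ₗ T.mkQ) = T := by simp
  have h9 := N_comap (π := e.toLinearMap ∘ₗ T.mkQ) (e.surjective.comp T.mkQ_surjective) k
    (fun _ => 1) ⊥
  rw [comap_bot, h8, hT, h4 fun _ => 1, N, sum_ncard,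
    Finset.sum_congr rfl fun j _ => by rw [Int.natCast_inj.1 (h5 j i)]] at h9
  have h10 : {K : Submodule F (Fin (k + n) → F) | finrank F K = k ∧ ⊥ ≤ K}.ncard = 5 * α i := by
    simp only [mul_one, Finset.sum_const, card_univ, Fintype.card_fin, nsmul_eq_mul] at h9
    exact_mod_cast h9
  rw [h10]
  exact (Nat.mul_div_cancel_left _ (by norm_num)).symm

theorem series {v k : ℕ} (h1 : 10 ≤ v) (h2 : v % 4 = 2) (h3 : k % 4 = 3) (h4 : k + 3 ≤ v) :
    ∃ (lam : ℕ) (D : Fin 5 → Set (Submodule F (Fin v → F))), (∀ i, IsDes v k lam (D i)) ∧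
      (Pairwise fun i j => Disjoint (D i) (D j)) ∧
      ∀ B : Submodule F (Fin v → F), finrank F B = k → ∃ i, B ∈ D i := by
  obtain ⟨a, rfl⟩ : ∃ a, k = 4 * a + 1 + 2 := ⟨k / 4, by omega⟩
  refine large (n := v - (4 * a + 3)) (by omega) ?_
  by_cases q : v = 4 * a + 6
  · have h := row (j := 4 * a + 3) (by omega)
    rw [show (4 * a + 3) % 4 = 3 by omega] at h
    rwa [show v - (4 * a + 3) = 3 by omega]
  · rw [show v - (4 * a + 3) = 4 * ((v - (4 * a + 10)) / 4) + 7 by omega]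
    exact main _ a

end Pool.Agent.MP_d1c425_co.H48
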