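import Pool.Agent.MP_d1c425_co.H48.Fibre

/-! Joins and the recursion along a flag. -/

set_option autoImplicit false
set_option linter.unusedSectionVars false

namespace Pool.Agent.MP_d1c425_co.H48

open Module Submodule Finset

variable {V W : Type} [AddCommGroup V] [Module F V] [Fintype V] [AddCommGroup W] [Module F W]
  [Fintype W]

/-- data that allow to join `i`-subspaces of an `(i + s)`-space with `j`-subspaces of a
`(j + n)`-space -/
def J (i s j n : ℕ) : Prop :=
  ∃ (S₁ S₂ : Set ℂ) (τ₁ τ₂ m : ℕ) (c : ℂ), P S₁ i s τ₁ ∧ P S₂ j n τ₂ ∧ 3 ≤ τ₁ + τ₂ ∧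
    (m = 0 ∨ m = 3 ∧ 3 ≤ s + 1 ∧ 3 ≤ j) ∧
    ∀ a ∈ S₁, ∀ b ∈ S₂, ∃ g : (Fin m → F) → ℂ, (∀ x, g x ∈ mu) ∧ ∑ x, g x = a * b * c

theorem one_mem_mu : (1 : ℂ) ∈ mu := one_pow 5

open Classical in
theorem join {π : V →ₗ[F] W} (hπ : Function.Surjective π) {U : Submodule F V}
    (hU : U ≤ LinearMap.ker π) {i s j n : ℕ} (h1 : finrank F U = i + s)
    (h2 : finrank F (LinearMap.ker π) = i + (s + 1)) (h3 : finrank F W = j + n) (h : J i s j n) :
    ∃ ψ : Submodule F V → ℂ, (∀ K, ψ K ∈ mu) ∧ ∀ T : Submodule F V, finrank F T < 3 →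
      ∑ K : Submodule F V, (if ((finrank F (K ⊓ LinearMap.ker π : Submodule F V) = i ∧
        K ⊓ LinearMap.ker π ≤ U) ∧ finrank F (K.map π) = j) ∧ T ≤ K then ψ K else 0) = 0 := by
  obtain ⟨S₁, S₂, τ₁, τ₂, m, c, p1, p2, hτ, hm, hg⟩ := h
  obtain ⟨ψ₁, a1, b1⟩ := p1.sub U h1
  obtain ⟨ψ₂, a2, b2⟩ := p2 W h3
  have key : ∀ (A : Submodule F V) (L : Submodule F W), ∃ χ : Submodule F V → ℂ,
      (∀ K, χ K ∈ mu) ∧ ((finrank F A = i ∧ A ≤ U) ∧ finrank F L = j →
      ∀ T : Submodule F V, finrank F T < 3 → 2 ^ m * ∑ K : Submodule F V,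
        (if (K ⊓ LinearMap.ker π = A ∧ K.map π = L) ∧ T ≤ K then χ K else 0) =
      if T ⊓ LinearMap.ker π ≤ A ∧ T.map π ≤ L then
        2 ^ ((j - finrank F (T.map π)) * (s + 1)) * (ψ₁ A * ψ₂ L * c) else 0) := fun A L => by
    by_cases e : (finrank F A = i ∧ A ≤ U) ∧ finrank F L = j
    · obtain ⟨g, g1, g2⟩ := hg _ (a1 A) _ (a2 L)
      obtain ⟨χ, c1, c2⟩ := fibre hπ (e.1.2.trans hU) L (e.1.1 ▸ h2) (e.2 ▸ hm) g
      refine ⟨χ, fun K => ?_, fun _ T hT => by rw [c2 T hT, g2, e.2]⟩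
      obtain ⟨x, hx⟩ := c1 K
      exact hx ▸ g1 x
    · exact ⟨fun _ => 1, fun _ => one_mem_mu, fun e' => absurd e' e⟩
  choose χ c1 c2 using key
  refine ⟨fun K => χ (K ⊓ LinearMap.ker π) (K.map π) K, fun K => c1 _ _ K, fun T hT => ?_⟩
  have e1 : ∀ K : Submodule F V, (if ((finrank F (K ⊓ LinearMap.ker π : Submodule F V) = i ∧
      K ⊓ LinearMap.ker π ≤ U) ∧ finrank F (K.map π) = j) ∧ T ≤ K then
      χ (K ⊓ LinearMap.ker π) (K.map π) K else 0) =
      ∑ A : Submodule F V, ∑ L : Submodule F W, if (finrank F A = i ∧ A ≤ U) ∧ finrank F L = j then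
        (if (K ⊓ LinearMap.ker π = A ∧ K.map π = L) ∧ T ≤ K then χ A L K else 0) else 0 :=
    fun K => by
      rw [Finset.sum_eq_single (K ⊓ LinearMap.ker π), Finset.sum_eq_single (K.map π)]
      · rw [ite_and]
        simp only [true_and]
      · exact fun L _ e => by simp [e.symm]
      · simp
      · exact fun A _ e => Finset.sum_eq_zero fun L _ => by simp [e.symm]
      · simp
  have e2 : ∀ (A : Submodule F V) (L : Submodule F W), 2 ^ m * ∑ K : Submodule F V,
      (if (finrank F A = i ∧ A ≤ U) ∧ finrank F L = j then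
        (if (K ⊓ LinearMap.ker π = A ∧ K.map π = L) ∧ T ≤ K then χ A L K else 0) else 0) =
      2 ^ ((j - finrank F (T.map π)) * (s + 1)) * c *
        ((if (finrank F A = i ∧ A ≤ U) ∧ T ⊓ LinearMap.ker π ≤ A then ψ₁ A else 0) *
          if finrank F L = j ∧ T.map π ≤ L then ψ₂ L else 0) := fun A L => by
    by_cases e : (finrank F A = i ∧ A ≤ U) ∧ finrank F L = j
    · simp only [if_pos e]
      refine (c2 A L e T hT).trans ?_
      simp only [e.1, e.2, true_and]
      by_cases q1 : T ⊓ LinearMap.ker π ≤ A <;> by_cases q2 : T.map π ≤ L <;>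
        simp only [q1, q2, if_true, if_false, and_self, and_false, false_and, mul_zero, zero_mul]
      ring
    · simp only [if_neg e, Finset.sum_const_zero, mul_zero]
      by_cases q : finrank F L = j
      · rw [if_neg fun q' => e ⟨q'.1, q⟩, zero_mul, mul_zero]
      · rw [if_neg (c := finrank F L = j ∧ _) fun q' => q q'.1, mul_zero, mul_zero]
  refine (mul_eq_zero.1 ?_).resolve_left (pow_ne_zero m (two_ne_zero (α := ℂ)))
  rw [Finset.sum_congr rfl fun K _ => e1 K, Finset.sum_comm, Finset.mul_sum,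
    Finset.sum_congr rfl fun A _ => by
      rw [Finset.sum_comm, Finset.mul_sum, Finset.sum_congr rfl fun L _ => e2 A L]]
  simp only [← Finset.mul_sum, ← Finset.sum_mul]
  have e3 := rank_map π T
  rcases lt_or_ge (finrank F (T.map π)) τ₂ with q | q
  · exact mul_eq_zero_of_right _ (mul_eq_zero_of_right _ (b2 _ q))
  · exact mul_eq_zero_of_right _ (mul_eq_zero_of_left (b1 _ (by omega)) _)

theorem exists_flag : ∃ U : ℕ → Submodule F V, (∀ j, U j ≤ U (j + 1)) ∧
    (∀ j ≤ finrank F V, finrank F (U j) = j) ∧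
    ∀ j, finrank F (U (j + 1)) ≤ finrank F (U j) + 1 := by
  have h : ∀ T : Submodule F V, ∃ T', T ≤ T' ∧ finrank F T' ≤ finrank F T + 1 ∧
      (finrank F T < finrank F V → finrank F T' = finrank F T + 1) := fun T => by
    by_cases e : ∀ y, y ∈ T
    · exact ⟨T, le_rfl, by omega, fun e' => by
        rw [eq_top_iff'.2 e, finrank_top] at e'
        omega⟩
    · push Not at e
      obtain ⟨y, hy⟩ := e
      exact ⟨_, le_sup_left, (finrank_sup_span_singleton hy).le,
        fun _ => finrank_sup_span_singleton hy⟩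
  choose f h1 h2 h3 using h
  refine ⟨fun j => Nat.rec ⊥ (fun _ T => f T) j, fun j => h1 _, fun j => ?_, fun j => h2 _⟩
  induction j with
  | zero => exact fun _ => finrank_bot F V
  | succ j ih =>
    intro hj
    have h4 := ih (by omega)
    exact (h3 _ (h4.trans_lt hj)).trans (congrArg (· + 1) h4)

theorem exists_cross (d : ℕ → ℕ) (h : ∀ i, d i ≤ d (i + 1) ∧ d (i + 1) ≤ d i + 1) {k : ℕ}
    (hk : ∀ i, d i ≤ k) : ∃! i, d i = i ∧ d (i + 1) = i := by
  classical
  have h1 : ∀ a i, d (i + a) ≤ d i + a := fun a i => by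
    induction a with
    | zero => exact le_rfl
    | succ a ih => exact (h (i + a)).2.trans (by omega)
  have h2 : ∃ i, d (i + 1) ≤ i := ⟨k, hk _⟩
  have h3 : Nat.find h2 ≤ d (Nat.find h2) := by
    rcases e : Nat.find h2 with _ | a
    · exact Nat.zero_le _
    · exact not_le.1 (Nat.find_min h2 (by omega))
  have h4 := Nat.find_spec h2
  have h5 := h (Nat.find h2)
  refine ExistsUnique.intro (Nat.find h2) ⟨by omega, by omega⟩ fun i hi =>
    le_antisymm (not_lt.1 fun e => ?_) (Nat.find_min' h2 hi.2.le)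
  obtain ⟨a, rfl⟩ := Nat.exists_eq_add_of_lt e
  have h6 := h1 a (Nat.find h2 + 1)
  rw [add_right_comm] at h6
  omega

open Classical in
theorem cut {k s n : ℕ} (h : ∀ i j, i + j = k → J i s j n) : P mu k (s + 1 + n) 3 := by
  intro V _ _ _ hV
  obtain ⟨U, u1, u2, u3⟩ := exists_flag (V := V)
  let Q : ℕ → Submodule F V → Prop := fun i K => finrank F K = k ∧
    finrank F (K ⊓ U (i + s) : Submodule F V) = i ∧
      finrank F (K ⊓ U (i + 1 + s) : Submodule F V) = i
  have key : ∀ i, ∃ ψ : Submodule F V → ℂ, (∀ K, ψ K ∈ mu) ∧ ∀ T : Submodule F V,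
      finrank F T < 3 → ∑ K : Submodule F V, (if Q i K ∧ T ≤ K then ψ K else 0) = 0 := fun i => by
    by_cases hi : i ≤ k
    · obtain ⟨j, rfl⟩ := Nat.exists_eq_add_of_le hi
      have := Fintype.ofFinite (V ⧸ U (i + 1 + s))
      have e0 : U (i + s) ≤ U (i + 1 + s) := add_right_comm i s 1 ▸ u1 _
      have e1 := u2 (i + 1 + s) (by omega)
      have e2 := (U (i + 1 + s)).finrank_quotient_add_finrank
      obtain ⟨ψ, h1, h2⟩ := join (U (i + 1 + s)).mkQ_surjective (U := U (i + s))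
        (by rwa [ker_mkQ]) (u2 _ (by omega)) (by rw [ker_mkQ]; omega) (by omega) (h i j rfl)
      refine ⟨ψ, h1, fun T hT => Eq.trans (Finset.sum_congr rfl fun K _ =>
        if_congr (and_congr_left' ?_) rfl rfl) (h2 T hT)⟩
      have e3 := rank_map (U (i + 1 + s)).mkQ K
      rw [ker_mkQ] at e3 ⊢
      refine ⟨fun ⟨q1, q2, q3⟩ => ⟨⟨q3, ?_⟩, by omega⟩, fun ⟨⟨q1, q2⟩, q3⟩ => ⟨by omega, ?_, q1⟩⟩
      · rw [← eq_of_le_of_finrank_eq (inf_le_inf_left K e0) (q2.trans q3.symm)]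
        exact inf_le_right
      · rw [le_antisymm (inf_le_inf_left K e0) (le_inf inf_le_left q2), q1]
    · refine ⟨fun _ => 1, fun _ => one_mem_mu, fun T _ => Finset.sum_eq_zero fun K _ =>
        if_neg fun e => hi ?_⟩
      rw [← e.1.1, ← e.1.2.1]
      exact finrank_mono inf_le_left
  choose ψ h1 h2 using key
  have uq : ∀ K : Submodule F V, ∃ i, ∀ j, Q j K ↔ finrank F K = k ∧ j = i := fun K => by
    obtain ⟨i, q1, q2⟩ := exists_cross (fun i => finrank F (K ⊓ U (i + s) : Submodule F V))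
      (k := finrank F K) (fun i => by
        rw [add_right_comm]
        refine ⟨finrank_mono (inf_le_inf_left K (u1 _)), ?_⟩
        have e1 := finrank_sup_add_finrank_inf_eq (K ⊓ U (i + s + 1)) (U (i + s))
        have e2 := finrank_mono (sup_le inf_le_right (u1 _) :
          K ⊓ U (i + s + 1) ⊔ U (i + s) ≤ U (i + s + 1))
        have e3 := u3 (i + s)
        have e4 := finrank_mono (le_sup_right : U (i + s) ≤ K ⊓ U (i + s + 1) ⊔ U (i + s))
        rw [inf_assoc, inf_eq_right.2 (u1 _)] at e1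
        omega) fun i => finrank_mono inf_le_left
    exact ⟨i, fun j => and_congr_right' ⟨q2 j, fun e => e ▸ q1⟩⟩
  choose ι hι using uq
  refine ⟨fun K => ψ (ι K) K, fun K => h1 _ _, fun T hT => ?_⟩
  rw [← Finset.sum_eq_zero fun i (_ : i ∈ Finset.univ.image ι) => h2 i T hT, Finset.sum_comm]
  refine Finset.sum_congr rfl fun K _ => ?_
  rw [Finset.sum_eq_single (ι K)]
  · simp only [hι, and_true]
  · exact fun i _ e => if_neg fun q => e ((hι K i).1 q.1).2
  · simp

end Pool.Agent.MP_d1c425_co.H48
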